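import Pool.Agent.N62.RK.Final
import Pool.Agent.N62.RK.ARPX
import Pool.Agent.N62.RK.BOUND
import Pool.Agent.N62.RK.CLAIM
import Pool.Agent.N62.RK.COMB
import Pool.Agent.N62.RK.CONV
import Pool.Agent.N62.RK.FI
import Pool.Agent.N62.RK.FININT
import Pool.Agent.N62.RK.FINU
import Pool.Agent.N62.RK.GEN
import Pool.Agent.N62.RK.HFIN
import Pool.Agent.N62.RK.INT
import Pool.Agent.N62.RK.K
import Pool.Agent.N62.RK.LAW0
import Pool.Agent.N62.RK.LAW1
import Pool.Agent.N62.RK.LAWEXT
import Pool.Agent.N62.RK.LAYER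
import Pool.Agent.N62.RK.LIN
import Pool.Agent.N62.RK.MAT
import Pool.Agent.N62.RK.MAXL
import Pool.Agent.N62.RK.MPI
import Pool.Agent.N62.RK.NILP
import Pool.Agent.N62.RK.NOETH
import Pool.Agent.N62.RK.PN
import Pool.Agent.N62.RK.PW
import Pool.Agent.N62.RK.QUOT
import Pool.Agent.N62.RK.RED
import Pool.Agent.N62.RK.RW
import Pool.Agent.N62.RK.STD
import Pool.Agent.N62.RK.SW
import Pool.Agent.N62.RK.TRI
import Pool.Agent.N62.RK.UP
import Pool.Agent.N62.RK.WORD

set_option autoImplicit false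

namespace Pool.Agent.Results.MP_8983b8_al.LocallyResiduallyFinite

open Polynomial

/-- The free associative ring (without unit) `ℤ⟨x₀, x₁, x₂, …⟩`. -/
abbrev FreeRng : Type := MonoidAlgebra ℤ (FreeSemigroup ℕ)

section

variable (R : Type) [NonUnitalRing R]

/-- The identity `f = 0` holds in the ring `R`: every homomorphism from the free ring to `R` maps
`f` to `0`. -/
def Satisfies (f : FreeRng) : Prop := ∀ φ : FreeRng →ₙ+* R, φ f = 0

/-- `R` belongs to the variety defined by the identities `f = 0`, `f ∈ E`. -/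
def InVariety (E : Set FreeRng) : Prop := ∀ f ∈ E, Satisfies R f

/-- `R` is finitely generated. -/
def FinGen : Prop := ∃ S : Finset R, NonUnitalSubring.closure (S : Set R) = ⊤

/-- `R` is residually finite: for every `r ≠ 0` there is a homomorphism onto a finite ring which
does not map `r` to `0`. -/
def ResiduallyFinite : Prop :=
  ∀ r : R, r ≠ 0 → ∃ (B : Type) (_ : NonUnitalRing B) (φ : R →ₙ+* B),
    Function.Surjective φ ∧ Finite B ∧ φ r ≠ 0

end

/-- The variety defined by `E` is locally residually finite. -/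
def LocallyResiduallyFinite (E : Set FreeRng) : Prop :=
  ∀ (R : Type) [NonUnitalRing R], InVariety R E → FinGen R → ResiduallyFinite R

/-- The ring `B₀(p)` generated by the matrices `e₁₂`, `t e₂₂`, `e₂₃` over the polynomial ring
`𝔽_p[t]`. -/
noncomputable def B0 (p : ℕ) : NonUnitalSubring (Matrix (Fin 3) (Fin 3) (ZMod p)[X]) :=
  NonUnitalSubring.closure {Matrix.single 0 1 1, Matrix.single 1 1 X, Matrix.single 1 2 1}

/-- The coefficient of the monomial `x y ^ k z` in `f(x, y, z)`; the letters `0, 1, 2` are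
`x, y, z`. -/
noncomputable def coeffXYZ (f : FreeAlgebra ℤ (Fin 3)) (k : ℕ) : ℤ :=
  (FreeAlgebra.basisFreeMonoid ℤ (Fin 3)).repr f
    (FreeMonoid.ofList (0 :: (List.replicate k 1 ++ [2])))

/-- The identity `f(x, y, z) = 0` holds for all `x, y, z ∈ R` (the value is computed in the ring
`ℤ ⊕ R`). -/
def Holds (f : FreeAlgebra ℤ (Fin 3)) (R : Type) [NonUnitalRing R] : Prop :=
  ∀ x y z : R, FreeAlgebra.lift ℤ
    ![(x : Unitization ℤ R), (y : Unitization ℤ R), (z : Unitization ℤ R)] f = 0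

theorem span_eq_top_iff (f : FreeAlgebra ℤ (Fin 3)) :
    (∀ p : ℕ, p.Prime → ∃ k, ¬ (p : ℤ) ∣ coeffXYZ f k) ↔
      Ideal.span (Set.range fun k : ℕ => coeffXYZ f k) = ⊤ := by
  constructor
  · intro h
    by_contra hne
    obtain ⟨m, hm, hle⟩ := Ideal.exists_le_maximal _ hne
    obtain ⟨q, rfl⟩ := (IsPrincipalIdealRing.principal m).principal
    have hq : (Ideal.span {q} : Ideal ℤ) ≤ Ideal.span {q} := le_rfl
    have hfin : ∃ p : ℕ, p.Prime ∧ (p : ℤ) ∣ q := by
      by_cases hq0 : q.natAbs = 1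
      · exfalso
        apply hm.ne_top
        rw [Ideal.submodule_span_eq, Ideal.span_singleton_eq_top]
        exact Int.isUnit_iff_natAbs_eq.2 hq0
      · obtain ⟨p, hp, hpq⟩ := Nat.exists_prime_and_dvd hq0
        exact ⟨p, hp, Int.natCast_dvd.2 hpq⟩
    obtain ⟨p, hp, hpq⟩ := hfin
    obtain ⟨k, hk⟩ := h p hp
    apply hk
    have h1 : coeffXYZ f k ∈ (Submodule.span ℤ {q} : Ideal ℤ) := hle (Ideal.subset_span ⟨k, rfl⟩)
    rw [Ideal.submodule_span_eq, Ideal.mem_span_singleton] at h1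
    exact hpq.trans h1
  · intro h p hp
    by_contra hcon
    push Not at hcon
    have h1 : (Ideal.span (Set.range fun k : ℕ => coeffXYZ f k)) ≤ Ideal.span {(p : ℤ)} := by
      rw [Ideal.span_le]
      rintro _ ⟨k, rfl⟩
      exact Ideal.mem_span_singleton.2 (hcon k)
    rw [h, top_le_iff, Ideal.span_singleton_eq_top, Int.isUnit_iff_natAbs_eq] at h1
    exact hp.one_lt.ne' (by simpa using h1)

/-- A variety of associative rings is locally residually finite if and only if for every prime `p`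
one of its defining identities fails in `B₀(p)`, and if and only if it satisfies an identity
`f(x, y, z) = 0` whose coefficients at the monomials `x y ^ k z`, `k ≥ 0`, are coprime. -/
theorem result (E : Set FreeRng) :
    [LocallyResiduallyFinite E,
      ∀ p : ℕ, p.Prime → ∃ f ∈ E, ¬ Satisfies (B0 p) f,
      ∃ f : FreeAlgebra ℤ (Fin 3), (∀ p : ℕ, p.Prime → ∃ k : ℕ, ¬ (p : ℤ) ∣ coeffXYZ f k) ∧
        ∀ (R : Type) [NonUnitalRing R], InVariety R E → Holds f R].TFAE := by
  have hRW := N62.RK.RW.t N62.RK.WORD.t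
  have hPN := N62.RK.PN.t N62.RK.INT.t N62.RK.TRI.t
  have hRED := N62.RK.RED.t hRW hPN
  have hGEN := N62.RK.GEN.t hRED
  have hNILP := N62.RK.NILP.t hGEN (N62.RK.SW.t hRW hPN) (N62.RK.K.t hRW)
  have hMPI := N62.RK.MPI.t N62.RK.LIN.t N62.RK.MAT.t N62.RK.STD.t (N62.RK.PW.t N62.RK.LIN.t)
  have h := N62.RK.main_of N62.RK.INT.t N62.RK.LAWEXT.t hMPI hGEN
    (N62.RK.LAYER.t N62.RK.NOETH.t) N62.RK.ARPX.t hNILP (N62.RK.CLAIM.t N62.RK.TRI.t)
    N62.RK.HFIN.t N62.RK.FINU.t (N62.RK.MAXL.t N62.RK.BOUND.t N62.RK.FININT.t hMPI)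
    N62.RK.FI.t N62.RK.UP.t N62.RK.QUOT.t N62.RK.LAW0.t N62.RK.COMB.t N62.RK.LAW1.t
    N62.RK.CONV.t E
  simp only [span_eq_top_iff]
  exact h

end Pool.Agent.Results.MP_8983b8_al.LocallyResiduallyFinite
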